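import Pool.Agent.Helper53.Comp.GoalsG
import Pool.Agent.Helper36.Mono.ZEval

/-!
# Packet G9 (MP_aa7fc1_ag, helper53): the expansion of the zeta function of a composition
-/

namespace Mono

namespace Comp

open Finset Filter Topology

namespace G9

/-! ### Sums over products of supports -/

theorem sum_pi_support {k : ℕ} {X : Type} (c : Fin k → X →₀ ℝ) (S : Fin k → Finset X)
    (h : ∀ i, (c i).support ⊆ S i) (G : (Fin k → X) → ℝ) :
    ∑ x ∈ Fintype.piFinset (fun i => (c i).support), (∏ i, c i (x i)) * G x =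
      ∑ x ∈ Fintype.piFinset S, (∏ i, c i (x i)) * G x := by
  refine Finset.sum_subset (Fintype.piFinset_subset _ _ h) fun x _ hx => ?_
  rw [Fintype.mem_piFinset] at hx
  push Not at hx
  obtain ⟨i, hi⟩ := hx
  have h0 : ∏ i, c i (x i) = 0 :=
    Finset.prod_eq_zero (Finset.mem_univ i) (Finsupp.notMem_support_iff.1 hi)
  rw [h0, zero_mul]

theorem expand {k : ℕ} {X : Type} (m : Fin k → ℕ) (f : (i : Fin k) → Fin (m i) → X →₀ ℝ)
    (G : (Fin k → X) → ℝ) :
    ∑ x ∈ Fintype.piFinset (fun i => (∑ l, f i l).support), (∏ i, (∑ l, f i l) (x i)) * G x =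
    ∑ I : (i : Fin k) → Fin (m i), ∑ x ∈ Fintype.piFinset (fun i => (f i (I i)).support),
      (∏ i, f i (I i) (x i)) * G x := by
  classical
  have h1 : ∀ i l, (f i l).support ⊆ univ.biUnion (fun l => (f i l).support) := fun i l =>
    Finset.subset_biUnion_of_mem (fun l => (f i l).support) (Finset.mem_univ l)
  have h2 : ∀ i, (∑ l, f i l).support ⊆ univ.biUnion (fun l => (f i l).support) :=
    fun i => Finsupp.support_finsetSum
  have h3 : ∑ I : (i : Fin k) → Fin (m i),
      ∑ x ∈ Fintype.piFinset (fun i => (f i (I i)).support), (∏ i, f i (I i) (x i)) * G x =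
      ∑ I : (i : Fin k) → Fin (m i), ∑ x ∈ Fintype.piFinset
        (fun i => univ.biUnion (fun l => (f i l).support)), (∏ i, f i (I i) (x i)) * G x :=
    Finset.sum_congr rfl fun I _ => sum_pi_support (fun i => f i (I i)) _ (fun i => h1 i (I i)) G
  rw [sum_pi_support (fun i => ∑ l, f i l) _ h2 G, h3, Finset.sum_comm]
  refine Finset.sum_congr rfl fun x _ => ?_
  rw [← Finset.sum_mul]
  congr 1
  simp_rw [Finsupp.finsetSum_apply]
  rw [Finset.prod_univ_sum]
  simp only [Fintype.piFinset_univ]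

/-! ### The contribution of one stratum -/

/-- The constant of a stratum. -/
noncomputable def aS (t : Stratum) : ℝ := (t.1 : ℝ) * (t.2.map (fun q => (q.1 : ℝ)⁻¹)).prod

/-- The multiset of a stratum. -/
noncomputable def mS (t : Stratum) : Multiset ℝ :=
  ((t.2.map (fun q => (q.2 : ℝ) / (q.1 : ℝ)) : List ℝ) : Multiset ℝ)

open Classical in
/-- The contribution of a stratum to `coefG`. -/
noncomputable def cS (red : Multiset ℝ → (ℝ × ℕ →₀ ℝ)) (t : Stratum) (e : ℕ) : ℝ × ℕ →₀ ℝ :=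
  if ∀ q ∈ t.2, e ∣ q.1 then
    ((t.1 : ℝ) * (t.2.map (fun q => (q.1 : ℝ)⁻¹)).prod) •
      red ((t.2.map (fun q => (q.2 : ℝ) / (q.1 : ℝ)) : List ℝ) : Multiset ℝ) else 0

theorem coefG_eq (red : Multiset ℝ → (ℝ × ℕ →₀ ℝ)) (g : List Stratum) (e : ℕ) :
    coefG red g e = ∑ l : Fin g.length, cS red (g.get l) e := by
  have h := Fin.sum_univ_fun_getElem g (fun t => cS red t e)
  exact h.symm

theorem fixI {k : ℕ} (red : Multiset ℝ → (ℝ × ℕ →₀ ℝ)) (t : Fin k → Stratum) (B : ℕ)
    (D : Fin k → ℕ) (hD : ∀ i, 0 < D i) (hB : ∀ i, D i ≤ B)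
    (hdiv : ∀ i e, e ∣ D i ↔ ∀ q ∈ (t i).2, e ∣ q.1)
    (H : (Fin k → ℕ) → (Fin k → ℝ × ℕ) → ℝ) :
    ∑ e ∈ Fintype.piFinset (fun _ : Fin k => Icc 1 B),
      ∑ x ∈ Fintype.piFinset (fun i => (cS red (t i) (e i)).support),
        (∏ i, cS red (t i) (e i) (x i)) * H e x =
    (∏ i, aS (t i)) * ∑ e ∈ Fintype.piFinset (fun i => (D i).divisors),
      ∑ x ∈ Fintype.piFinset (fun i => (red (mS (t i))).support),
        (∏ i, red (mS (t i)) (x i)) * H e x := by
  classical
  have h1 : ∀ e ∈ Fintype.piFinset (fun i => (D i).divisors),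
      (∏ i, aS (t i)) * ∑ x ∈ Fintype.piFinset (fun i => (red (mS (t i))).support),
        (∏ i, red (mS (t i)) (x i)) * H e x =
      ∑ x ∈ Fintype.piFinset (fun i => (cS red (t i) (e i)).support),
        (∏ i, cS red (t i) (e i) (x i)) * H e x := by
    intro e he
    rw [Fintype.mem_piFinset] at he
    have h2 : ∀ i, cS red (t i) (e i) = aS (t i) • red (mS (t i)) := by
      intro i
      have h3 : ∀ q ∈ (t i).2, e i ∣ q.1 := (hdiv i (e i)).1 (Nat.dvd_of_mem_divisors (he i))
      rw [cS, if_pos h3]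
      rfl
    rw [sum_pi_support (fun i => cS red (t i) (e i)) (fun i => (red (mS (t i))).support)
      (fun i => by rw [h2 i]; exact Finsupp.support_smul), Finset.mul_sum]
    refine Finset.sum_congr rfl fun x _ => ?_
    rw [← mul_assoc, ← Finset.prod_mul_distrib]
    congr 1
    refine Finset.prod_congr rfl fun i _ => ?_
    rw [h2 i, Finsupp.smul_apply, smul_eq_mul]
  rw [Finset.mul_sum, Finset.sum_congr rfl h1]
  symm
  refine Finset.sum_subset (Fintype.piFinset_subset _ _ fun i => ?_) fun e he hne => ?_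
  · intro a ha
    rw [Finset.mem_Icc]
    exact ⟨Nat.pos_of_mem_divisors ha, (Nat.divisor_le ha).trans (hB i)⟩
  · rw [Fintype.mem_piFinset] at he hne
    push Not at hne
    obtain ⟨i, hi⟩ := hne
    have h3 : ¬ ∀ q ∈ (t i).2, e i ∣ q.1 := by
      rw [← hdiv i]
      intro h4
      exact hi (Nat.mem_divisors.2 ⟨h4, (hD i).ne'⟩)
    refine Finset.sum_eq_zero fun x _ => ?_
    have h5 : cS red (t i) (e i) (x i) = 0 := by
      rw [cS, if_neg h3]
      rfl
    have h6 : ∏ i, cS red (t i) (e i) (x i) = 0 := Finset.prod_eq_zero (Finset.mem_univ i) h5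
    rw [h6, zero_mul]

/-! ### Charts -/

section chart

variable {k : ℕ} (D : Fin k → List (ℕ × ℕ))

theorem sum_chart {M : Type*} [AddCommMonoid M] (f : (i : Fin k) → Fin (D i).length → M) :
    ∑ j : Fin (dimD D), f (posD D j).1 (posD D j).2 = ∑ i, ∑ l, f i l := by
  rw [← Fintype.sum_sigma']
  exact Equiv.sum_comp finSigmaFinEquiv.symm (fun p : (i : Fin k) × Fin (D i).length => f p.1 p.2)

theorem prod_chart {M : Type*} [CommMonoid M] (f : (i : Fin k) → Fin (D i).length → M) :
    ∏ j : Fin (dimD D), f (posD D j).1 (posD D j).2 = ∏ i, ∏ l, f i l := by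
  rw [← Fintype.prod_sigma']
  exact Equiv.prod_comp finSigmaFinEquiv.symm (fun p : (i : Fin k) × Fin (D i).length => f p.1 p.2)

theorem prod_chart' {M : Type*} [CommMonoid M] (φ : ℕ × ℕ → M) :
    ∏ j : Fin (dimD D), φ ((D (posD D j).1).get (posD D j).2) = ∏ i, ((D i).map φ).prod := by
  rw [prod_chart D (fun i l => φ ((D i).get l))]
  refine Finset.prod_congr rfl fun i _ => ?_
  exact Fin.prod_univ_fun_getElem (D i) φ

theorem blk_surj (hD : ∀ i, D i ≠ []) : Function.Surjective (blkD D) := by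
  intro i
  have h : 0 < (D i).length := List.length_pos_of_ne_nil (hD i)
  refine ⟨finSigmaFinEquiv ⟨i, ⟨0, h⟩⟩, ?_⟩
  simp [blkD, posD]

theorem forall_chart (i : Fin k) (p : ℕ × ℕ → Prop) :
    (∀ j, blkD D j = i → p ((D (posD D j).1).get (posD D j).2)) ↔ ∀ q ∈ D i, p q := by
  constructor
  · intro h q hq
    obtain ⟨l, hl⟩ := List.mem_iff_get.1 hq
    have h1 := h (finSigmaFinEquiv ⟨i, l⟩) (by simp [blkD, posD])
    have h2 : posD D (finSigmaFinEquiv ⟨i, l⟩) = ⟨i, l⟩ := by simp [posD]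
    rw [h2] at h1
    rw [← hl]
    exact h1
  · intro h j hj
    subst hj
    exact h _ (List.get_mem _ _)

theorem dvd_gcd (i : Fin k) (e : ℕ) : e ∣ blkGcd (blkD D) (ND D) i ↔ ∀ q ∈ D i, e ∣ q.1 := by
  rw [blkGcd, Finset.dvd_gcd_iff, ← forall_chart D i (fun q => e ∣ q.1)]
  simp only [Finset.mem_filter, Finset.mem_univ, true_and]
  rfl

theorem gcd_pos (i : Fin k) (hD : D i ≠ []) (hp : ∀ q ∈ D i, 0 < q.1) :
    0 < blkGcd (blkD D) (ND D) i := by
  rw [Nat.pos_iff_ne_zero]
  intro h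
  have h1 := (dvd_gcd D i 0).1 (by rw [h])
  obtain ⟨q, hq⟩ := List.exists_mem_of_ne_nil _ hD
  have h2 := Nat.eq_zero_of_zero_dvd (h1 q hq)
  have h3 := hp q hq
  omega

theorem ms_chart (φ : ℕ × ℕ → ℝ) (i : Fin k) :
    ms (blkD D) (fun j => φ ((D (posD D j).1).get (posD D j).2)) i =
      (((D i).map φ : List ℝ) : Multiset ℝ) := by
  classical
  have h1 : ms (blkD D) (fun j => φ ((D (posD D j).1).get (posD D j).2)) i =
      ∑ j : Fin (dimD D), if blkD D j = i then
        ({φ ((D (posD D j).1).get (posD D j).2)} : Multiset ℝ) else 0 := by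
    rw [← Finset.sum_filter]
    unfold ms
    rw [← Multiset.sum_map_singleton (Multiset.map _ _), Multiset.map_map]
    rfl
  rw [h1]
  have h2 := sum_chart D (fun i' l => if i' = i then ({φ ((D i').get l)} : Multiset ℝ) else 0)
  refine Eq.trans h2 ?_
  rw [Finset.sum_eq_single i]
  · simp only [if_true]
    have h3 := Fin.sum_univ_fun_getElem (D i) (fun q => ({φ q} : Multiset ℝ))
    refine Eq.trans h3 ?_
    induction D i with
    | nil => rfl
    | cons a l ih => simp [ih]
  · intro b _ hb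
    simp [hb]
  · intro h
    exact absurd (Finset.mem_univ i) h

end chart

end G9

open G9 Mono.H3h in
theorem collect (h1 : ZEvalR) (h2 : Moebius) (h3 : RedMulti) : Collect := by
  intro red hred k A Z Φ hk hTri g hg T hT F hF
  obtain ⟨-, hMb, hMc⟩ := h2
  have hA : ∀ v ∈ A, ∀ i, 0 ≤ v i := hTri.2.1
  set DI : ((i : Fin k) → Fin (g i).length) → Fin k → List (ℕ × ℕ) :=
    fun I i => ((g i).get (I i)).2 with hDI
  have hne : ∀ I i, DI I i ≠ [] := fun I i => (hg i _ (List.get_mem _ _)).1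
  have hpos : ∀ I i, ∀ q ∈ DI I i, 0 < q.1 ∧ 0 < q.2 := fun I i => (hg i _ (List.get_mem _ _)).2
  set dI : ((i : Fin k) → Fin (g i).length) → Fin k → ℕ :=
    fun I => blkGcd (blkD (DI I)) (ND (DI I)) with hdI
  set χ : ((i : Fin k) → Fin (g i).length) → ℝ :=
    fun I => ∏ i, (((g i).get (I i)).1 : ℝ) with hχ
  set B : ℕ := ∑ I, ∑ i, dI I i with hB
  refine ⟨∑ I, χ I * ∏ j, (nuD (DI I) j : ℝ)⁻¹, B, fun s hs => ?_⟩
  have hNpos : ∀ I j, 0 < ND (DI I) j := fun I j => (hpos I _ _ (List.get_mem _ _)).1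
  have hnpos : ∀ I j, 0 < nuD (DI I) j := fun I j => (hpos I _ _ (List.get_mem _ _)).2
  have hgood : Good (s : ℂ) (ZF A g T)
      ((∑ I, χ I * ZrealR (nuR (nuD (DI I))) (chartA A (DI I)) (T I) s : ℝ) : ℂ) := by
    unfold ZF
    rw [Complex.ofReal_sum]
    refine good_sum _ _ _ fun I _ => ?_
    rw [Complex.ofReal_mul]
    refine Good.mul ?_ ?_
    · refine (good_C _).congr ?_
      rw [hχ]
      push_cast
      rfl
    · refine h1 _ _ _ _ (hnpos I) ?_ s hs
      intro v hv j
      obtain ⟨u, hu, rfl⟩ := Finset.mem_image.1 hv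
      exact mul_nonneg (by positivity) (hA u hu _)
  refine ⟨hgood.1, hgood.2.trans ?_⟩
  congr 1
  rw [eq_div_iff (by positivity), Finset.sum_mul]
  -- the value for one chart
  have hI : ∀ I, χ I * ZrealR (nuR (nuD (DI I))) (chartA A (DI I)) (T I) s * (s + 1) =
      χ I * ∏ j, (nuD (DI I) j : ℝ)⁻¹ -
        s * ∑ e ∈ Fintype.piFinset (fun _ : Fin k => Icc 1 B),
          ∑ x ∈ Fintype.piFinset (fun i => (cS red ((g i).get (I i)) (e i)).support),
            (∏ i, cS red ((g i).get (I i)) (e i) (x i)) * FE (F s) e (repl x) := by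
    intro I
    have hNne : ∀ j, (ND (DI I) j : ℝ) ≠ 0 := fun j => by
      have := hNpos I j
      positivity
    have hdpos : ∀ i, 0 < dI I i := fun i => gcd_pos (DI I) i (hne I i) fun q hq => (hpos I i q hq).1
    have hw : (fun j => (ND (DI I) j : ℝ) * ((nuD (DI I) j : ℝ) / (ND (DI I) j : ℝ))) =
        nuR (nuD (DI I)) := by
      funext j
      rw [mul_div_cancel₀ _ (hNne j)]
      rfl
    have hρ : ∀ j, 0 < (nuD (DI I) j : ℝ) / (ND (DI I) j : ℝ) := fun j => by
      have := hNpos I j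
      have := hnpos I j
      positivity
    have hkey := (hF s hs (dI I) hdpos).2 (dimD (DI I)) (blkD (DI I)) (ND (DI I))
      (blk_surj (DI I) (hne I)) (hNpos I) (fun i => rfl) (T I) (hT I)
      (fun j => (nuD (DI I) j : ℝ) / (ND (DI I) j : ℝ)) hρ
    rw [hw] at hkey
    have hw' : ∀ j, (ND (DI I) j : ℝ) * ((nuD (DI I) j : ℝ) / (ND (DI I) j : ℝ)) =
        nuD (DI I) j := fun j => congrFun hw j
    simp_rw [hw'] at hkey
    have hms : ms (blkD (DI I)) (fun j => (nuD (DI I) j : ℝ) / (ND (DI I) j : ℝ)) =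
        fun i => mS ((g i).get (I i)) := by
      funext i
      exact ms_chart (DI I) (fun q => (q.2 : ℝ) / (q.1 : ℝ)) i
    have hN : ∏ j, (ND (DI I) j : ℝ)⁻¹ =
        ∏ i, (((g i).get (I i)).2.map (fun q => (q.1 : ℝ)⁻¹)).prod :=
      prod_chart' (DI I) (fun q => (q.1 : ℝ)⁻¹)
    have hFE : F s (dI I) (fun i => mS ((g i).get (I i))) =
        ∑ e ∈ Fintype.piFinset (fun i => (dI I i).divisors),
          ∑ x ∈ Fintype.piFinset (fun i => (red (mS ((g i).get (I i)))).support),
            (∏ i, red (mS ((g i).get (I i))) (x i)) * FE (F s) e (repl x) := by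
      rw [hMc k (F s) (dI I) hdpos]
      refine Finset.sum_congr rfl fun e he => ?_
      rw [Fintype.mem_piFinset] at he
      refine h3 red hred k Φ (WR Φ (vE e) Z s) (FE (F s) e)
        (hMb k Z Φ s (F s) (fun D hD => (hF s hs D hD).1) e
          fun i => Nat.pos_of_mem_divisors (he i)) _ fun i => ⟨?_, ?_⟩
      · intro h0
        have h4 : (((g i).get (I i)).2.map (fun q => (q.2 : ℝ) / (q.1 : ℝ))) = [] :=
          (Multiset.coe_eq_zero _).1 h0
        exact hne I i (List.map_eq_nil_iff.1 h4)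
      · intro y hy
        obtain ⟨q, hq, rfl⟩ := List.mem_map.1 (Multiset.mem_coe.1 hy)
        have h5 := hpos I i q hq
        have h6 : (0 : ℝ) < q.1 := by exact_mod_cast h5.1
        have h7 : (0 : ℝ) < q.2 := by exact_mod_cast h5.2
        positivity
    rw [hms, hFE] at hkey
    replace hkey : (s + 1) * ZrealR (nuR (nuD (DI I))) (chartA A (DI I)) (T I) s = _ := hkey
    rw [fixI red (fun i => (g i).get (I i)) B (dI I) hdpos ?_ (fun i e => dvd_gcd (DI I) i e)
      (fun e x => FE (F s) e (repl x))]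
    · have h8 : ∏ i, aS ((g i).get (I i)) = χ I * ∏ j, (ND (DI I) j : ℝ)⁻¹ := by
        rw [hN, hχ, ← Finset.prod_mul_distrib]
        rfl
      rw [h8, mul_assoc (χ I), mul_comm _ (s + 1), hkey]
      ring
    · intro i
      calc dI I i ≤ ∑ i, dI I i := Finset.single_le_sum (fun _ _ => Nat.zero_le _)
            (Finset.mem_univ i)
        _ ≤ B := Finset.single_le_sum (f := fun I => ∑ i, dI I i) (fun _ _ => Nat.zero_le _)
            (Finset.mem_univ I)
  rw [Finset.sum_congr rfl fun I _ => hI I, Finset.sum_sub_distrib, ← Finset.mul_sum,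
    Finset.sum_comm]
  congr 2
  refine Finset.sum_congr rfl fun e _ => ?_
  simp_rw [coefG_eq]
  exact (expand (fun i => (g i).length) (fun i l => cS red ((g i).get l) (e i))
    (fun x => FE (F s) e (repl x))).symm

end Comp

end Mono
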